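import Pool.Agent.Helper60.PlzA.Goals

/-!
# Packet PK1 of project PLA (MP_8e7d5e_co)
-/

set_option autoImplicit false

namespace Pool.Agent.Helper94.PlzA

open Finset Pool.Agent.Helper93.Plz Pool.Agent.Helper60.PlzA

open scoped Classical

section

variable {V : Type} [Fintype V] {M : ℕ} (G : SimpleGraph V) (σ : V → Fin M) (δ : ℝ)

/-- The pair condition. -/
def Qp (x z : V) : Prop := σ z ≠ σ x ∧ exc G σ z (σ x) ≤ δ ∧ exc G σ x (σ z) ≤ δ

/-- Fine vertices. -/
def Fine (x : V) : Prop := 4 * (univ.filter fun j => δ < exc G σ x j).card ≤ M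

/-- The good triples. -/
def Gd (z w x : V) : Prop :=
  Fine G σ δ x ∧ (G.Adj x z ∧ Qp G σ δ x z) ∧ (G.Adj x w ∧ Qp G σ δ x w)

/-- The bad neighbours of `x`. -/
noncomputable def Pb (x : V) : Finset V := univ.filter fun z => G.Adj x z ∧ ¬ Qp G σ δ x z

/-- Sum of the large parts. -/
noncomputable def Lg : ℝ := ∑ x, ∑ j, if δ < exc G σ x j then (Dp G σ x j : ℝ) else 0

theorem card_fib (x : V) (P : Fin M → Prop) :
    ((univ.filter fun z => G.Adj x z ∧ P (σ z)).card : ℝ) =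
      ∑ j, if P j then (Dp G σ x j : ℝ) else 0 := by
  rw [Finset.card_eq_sum_card_fiberwise (f := σ) (t := univ) (fun _ _ => mem_univ _)]
  push_cast
  refine Finset.sum_congr rfl fun j _ => ?_
  by_cases h : P j
  · rw [if_pos h, Dp]
    rw [Finset.filter_filter]
    norm_cast
    congr 1
    ext z
    simp only [mem_filter, mem_univ, true_and]
    constructor
    · rintro ⟨⟨h1, _⟩, h3⟩
      exact ⟨h1, h3⟩
    · rintro ⟨h1, h3⟩
      exact ⟨⟨h1, h3 ▸ h⟩, h3⟩
  · rw [if_neg h, Finset.filter_filter]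
    norm_cast
    rw [Finset.card_eq_zero, Finset.filter_eq_empty_iff]
    rintro z _ ⟨⟨_, h2⟩, h3⟩
    exact h (h3 ▸ h2)

theorem sum_Pb_le : (∑ x, ((Pb G σ δ x).card : ℝ)) ≤
    (∑ x, (Dp G σ x (σ x) : ℝ)) + 2 * Lg G σ δ := by
  have h1 : ∀ x, ((Pb G σ δ x).card : ℝ) ≤ (Dp G σ x (σ x) : ℝ) +
      ((univ.filter fun z => G.Adj x z ∧ δ < exc G σ x (σ z)).card : ℝ) +
      ((univ.filter fun z => G.Adj x z ∧ δ < exc G σ z (σ x)).card : ℝ) := by
    intro x
    have hsub : Pb G σ δ x ⊆ (univ.filter fun z => G.Adj x z ∧ σ z = σ x) ∪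
        (univ.filter fun z => G.Adj x z ∧ δ < exc G σ x (σ z)) ∪
        (univ.filter fun z => G.Adj x z ∧ δ < exc G σ z (σ x)) := by
      intro z hz
      simp only [Pb, Qp, mem_filter, mem_univ, true_and, mem_union] at hz ⊢
      obtain ⟨ha, hq⟩ := hz
      by_cases h1 : σ z = σ x
      · exact Or.inl (Or.inl ⟨ha, h1⟩)
      by_cases h2 : exc G σ z (σ x) ≤ δ
      · by_cases h3 : exc G σ x (σ z) ≤ δ
        · exact absurd ⟨h1, h2, h3⟩ hq
        · exact Or.inl (Or.inr ⟨ha, not_le.mp h3⟩)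
      · exact Or.inr ⟨ha, not_le.mp h2⟩
    have h2 := Finset.card_le_card hsub
    have h3 := (h2.trans (Finset.card_union_le _ _)).trans
      (Nat.add_le_add_right (Finset.card_union_le _ _) _)
    exact_mod_cast h3
  have h2 : (∑ x, ((univ.filter fun z => G.Adj x z ∧ δ < exc G σ x (σ z)).card : ℝ)) =
      Lg G σ δ := by
    unfold Lg
    exact Finset.sum_congr rfl fun x _ => card_fib G σ x (fun j => δ < exc G σ x j)
  have h3 : (∑ x, ((univ.filter fun z => G.Adj x z ∧ δ < exc G σ z (σ x)).card : ℝ)) =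
      Lg G σ δ := by
    rw [← h2]
    have e1 : ∀ x, ((univ.filter fun z => G.Adj x z ∧ δ < exc G σ z (σ x)).card : ℝ) =
        ∑ z, if G.Adj x z ∧ δ < exc G σ z (σ x) then (1 : ℝ) else 0 := by
      intro x; rw [Finset.card_filter]; push_cast; rfl
    have e2 : ∀ x, ((univ.filter fun z => G.Adj x z ∧ δ < exc G σ x (σ z)).card : ℝ) =
        ∑ z, if G.Adj x z ∧ δ < exc G σ x (σ z) then (1 : ℝ) else 0 := by
      intro x; rw [Finset.card_filter]; push_cast; rfl
    simp_rw [e1, e2]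
    rw [Finset.sum_comm]
    refine Finset.sum_congr rfl fun z _ => Finset.sum_congr rfl fun x _ => ?_
    rw [SimpleGraph.adj_comm]
  calc (∑ x, ((Pb G σ δ x).card : ℝ)) ≤ ∑ x, ((Dp G σ x (σ x) : ℝ) +
      ((univ.filter fun z => G.Adj x z ∧ δ < exc G σ x (σ z)).card : ℝ) +
      ((univ.filter fun z => G.Adj x z ∧ δ < exc G σ z (σ x)).card : ℝ)) :=
        Finset.sum_le_sum fun x _ => h1 x
    _ = (∑ x, (Dp G σ x (σ x) : ℝ)) + 2 * Lg G σ δ := by
        rw [Finset.sum_add_distrib, Finset.sum_add_distrib, h2, h3]; ring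

theorem Lg_le {s : ℕ} {ζ : ℝ} (hζ : 0 < ζ) (hδ : δ = ζ * s)
    (hpos : ∀ x j, 0 ≤ exc G σ x j) (hD : ∀ x, Dp G σ x (σ x) ≤ s) :
    Lg G σ δ ≤ (1 + 1 / ζ) * ∑ x, ∑ j, exc G σ x j := by
  unfold Lg
  rw [Finset.mul_sum]
  refine Finset.sum_le_sum fun x _ => ?_
  rw [Finset.mul_sum]
  refine Finset.sum_le_sum fun j _ => ?_
  split_ifs with h
  · have h1 : (Dp G σ x j : ℝ) = exc G σ x j + Dp G σ x (σ x) := by
      unfold exc; ring
    have h2 : (Dp G σ x (σ x) : ℝ) ≤ s := by exact_mod_cast hD x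
    have h3 : (s : ℝ) ≤ exc G σ x j / ζ := by
      rw [le_div_iff₀ hζ]; rw [hδ] at h; linarith
    have h4 : (1 + 1 / ζ) * exc G σ x j = exc G σ x j + exc G σ x j / ζ := by ring
    linarith
  · have : 0 ≤ 1 + 1 / ζ := by positivity
    exact mul_nonneg this (hpos x j)

theorem nf_le {s : ℕ} {ζ τ : ℝ} (hζ : 0 < ζ) (hs : 1 ≤ s) (hM : 1 ≤ M) (hδ : δ = ζ * s)
    (hpos : ∀ x j, 0 ≤ exc G σ x j)
    (hsum : ∑ x, ∑ j, exc G σ x j ≤ τ * (M * s : ℕ) * Fintype.card V) :
    ((univ.filter fun x => ¬ Fine G σ δ x).card : ℝ) ≤ 4 * τ / ζ * Fintype.card V := by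
  have hs' : (0 : ℝ) < s := by exact_mod_cast hs
  have hM' : (0 : ℝ) < M := by exact_mod_cast hM
  have hδ0 : 0 < δ := by rw [hδ]; positivity
  have h1 : ∀ x, ¬ Fine G σ δ x → ζ * s * M / 4 ≤ ∑ j, exc G σ x j := by
    intro x hx
    unfold Fine at hx
    have hx' : (M : ℝ) < 4 * ((univ.filter fun j => δ < exc G σ x j).card : ℝ) := by
      exact_mod_cast not_le.mp hx
    have h2 : ((univ.filter fun j => δ < exc G σ x j).card : ℝ) * δ ≤ ∑ j, exc G σ x j := by
      calc ((univ.filter fun j => δ < exc G σ x j).card : ℝ) * δ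
          = ∑ j ∈ univ.filter (fun j => δ < exc G σ x j), δ := by
            rw [Finset.sum_const, nsmul_eq_mul]
        _ ≤ ∑ j ∈ univ.filter (fun j => δ < exc G σ x j), exc G σ x j :=
            Finset.sum_le_sum fun j hj => (Finset.mem_filter.mp hj).2.le
        _ ≤ ∑ j, exc G σ x j :=
            Finset.sum_le_sum_of_subset_of_nonneg (Finset.filter_subset _ _)
              fun j _ _ => hpos x j
    have h3 : (M : ℝ) / 4 * δ ≤ ((univ.filter fun j => δ < exc G σ x j).card : ℝ) * δ :=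
      mul_le_mul_of_nonneg_right (by linarith) hδ0.le
    have h4 := h3.trans h2
    have e : (M : ℝ) / 4 * δ = ζ * s * M / 4 := by rw [hδ]; ring
    rw [e] at h4
    exact h4
  have h2 : ((univ.filter fun x => ¬ Fine G σ δ x).card : ℝ) * (ζ * s * M / 4) ≤
      τ * (M * s : ℕ) * Fintype.card V := by
    refine le_trans ?_ hsum
    calc ((univ.filter fun x => ¬ Fine G σ δ x).card : ℝ) * (ζ * s * M / 4)
        = ∑ x ∈ univ.filter (fun x => ¬ Fine G σ δ x), (ζ * s * M / 4) := by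
          rw [Finset.sum_const, nsmul_eq_mul]
      _ ≤ ∑ x ∈ univ.filter (fun x => ¬ Fine G σ δ x), ∑ j, exc G σ x j :=
          Finset.sum_le_sum fun x hx => h1 x (Finset.mem_filter.mp hx).2
      _ ≤ ∑ x, ∑ j, exc G σ x j :=
          Finset.sum_le_sum_of_subset_of_nonneg (Finset.filter_subset _ _)
            fun x _ _ => Finset.sum_nonneg fun j _ => hpos x j
  have h3 : 4 * τ / ζ * (Fintype.card V : ℝ) =
      (τ * (M * s : ℕ) * Fintype.card V) / (ζ * s * M / 4) := by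
    push_cast
    field_simp
  rw [h3, le_div_iff₀ (by positivity)]
  exact h2

/-- The pairs of neighbours of `x` that are not good. -/
noncomputable def NGx (x : V) : Finset (V × V) :=
  (nbs G x ×ˢ nbs G x).filter fun p => ¬ Gd G σ δ p.1 p.2 x

theorem NGx_le {t : ℕ} (hdeg : ∀ v, dgr G v ≤ t) (x : V) :
    ((NGx G σ δ x).card : ℝ) ≤
      (if ¬ Fine G σ δ x then (t : ℝ) ^ 2 else 0) + 2 * t * ((Pb G σ δ x).card : ℝ) := by
  have hd : ((nbs G x).card : ℝ) ≤ t := by exact_mod_cast hdeg x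
  have hd0 : (0 : ℝ) ≤ ((nbs G x).card : ℝ) := Nat.cast_nonneg _
  have hP0 : (0 : ℝ) ≤ ((Pb G σ δ x).card : ℝ) := Nat.cast_nonneg _
  have ht0 : (0 : ℝ) ≤ t := Nat.cast_nonneg _
  by_cases hf : Fine G σ δ x
  · rw [if_neg (not_not.mpr hf)]
    have hsub : NGx G σ δ x ⊆ (Pb G σ δ x ×ˢ nbs G x) ∪ (nbs G x ×ˢ Pb G σ δ x) := by
      intro p hp
      simp only [NGx, nbs, Pb, Gd, mem_filter, mem_univ, true_and, mem_union, mem_product] at hp ⊢
      obtain ⟨⟨h1, h2⟩, h3⟩ := hp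
      by_cases h4 : Qp G σ δ x p.1
      · by_cases h5 : Qp G σ δ x p.2
        · exact absurd ⟨hf, ⟨h1, h4⟩, h2, h5⟩ h3
        · exact Or.inr ⟨h1, h2, h5⟩
      · exact Or.inl ⟨⟨h1, h4⟩, h2⟩
    have h1 := (Finset.card_le_card hsub).trans (Finset.card_union_le _ _)
    rw [Finset.card_product, Finset.card_product] at h1
    have h2 : ((NGx G σ δ x).card : ℝ) ≤ ((Pb G σ δ x).card : ℝ) * (nbs G x).card +
        (nbs G x).card * (Pb G σ δ x).card := by exact_mod_cast h1
    nlinarith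
  · rw [if_pos hf]
    have h1 : (NGx G σ δ x).card ≤ (nbs G x ×ˢ nbs G x).card :=
      Finset.card_le_card (Finset.filter_subset _ _)
    rw [Finset.card_product] at h1
    have h2 : ((NGx G σ δ x).card : ℝ) ≤ ((nbs G x).card : ℝ) * (nbs G x).card := by
      exact_mod_cast h1
    have h3 : ((nbs G x).card : ℝ) * (nbs G x).card ≤ (t : ℝ) ^ 2 := by nlinarith
    have h4 : 0 ≤ 2 * (t : ℝ) * ((Pb G σ δ x).card : ℝ) := by positivity
    linarith

/-- The number of common neighbours that are not good. -/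
noncomputable def ng (p : V × V) : Finset V :=
  (cmn G p.1 p.2).filter fun x => ¬ Gd G σ δ p.1 p.2 x

/-- The good common neighbours in a part. -/
noncomputable def gs (p : V × V) (i : Fin M) : Finset V :=
  univ.filter fun x => Gd G σ δ p.1 p.2 x ∧ σ x = i

theorem sum_ng_le (B : Finset (V × V)) :
    (∑ p ∈ B, ((ng G σ δ p).card : ℝ)) ≤ ∑ x, ((NGx G σ δ x).card : ℝ) := by
  have e1 : ∀ p, ((ng G σ δ p).card : ℝ) =
      ∑ x, if x ∈ ng G σ δ p then (1 : ℝ) else 0 := by
    intro p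
    rw [Finset.sum_ite_mem, Finset.univ_inter, Finset.sum_const, nsmul_eq_mul, mul_one]
  have e2 : ∀ x, ((NGx G σ δ x).card : ℝ) =
      ∑ p, if p ∈ NGx G σ δ x then (1 : ℝ) else 0 := by
    intro x
    rw [Finset.sum_ite_mem, Finset.univ_inter, Finset.sum_const, nsmul_eq_mul, mul_one]
  simp_rw [e1, e2]
  rw [Finset.sum_comm]
  refine Finset.sum_le_sum fun x _ => ?_
  refine le_trans (Finset.sum_le_sum_of_subset_of_nonneg (Finset.subset_univ B) ?_) ?_
  · intro p _ _
    split_ifs <;> norm_num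
  · refine Finset.sum_le_sum fun p _ => ?_
    by_cases h : x ∈ ng G σ δ p
    · have h' : p ∈ NGx G σ δ x := by
        simp only [ng, cmn, mem_filter, mem_univ, true_and] at h
        simp only [NGx, nbs, mem_filter, mem_univ, true_and, mem_product]
        exact ⟨⟨h.1.1.symm, h.1.2.symm⟩, h.2⟩
      rw [if_pos h, if_pos h']
    · rw [if_neg h]
      split_ifs <;> norm_num

theorem gs_card_le {s : ℕ} {ζ : ℝ} (hζ1 : ζ ≤ 1) (hδ : δ = ζ * s)
    (hD : ∀ x, Dp G σ x (σ x) ≤ s) (z : V) (i : Fin M) (hz : exc G σ z i ≤ δ) :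
    Dp G σ z i ≤ 2 * s := by
  have h1 : (Dp G σ z i : ℝ) = exc G σ z i + Dp G σ z (σ z) := by unfold exc; ring
  have h2 : (Dp G σ z (σ z) : ℝ) ≤ s := by exact_mod_cast hD z
  have h3 : (0 : ℝ) ≤ s := Nat.cast_nonneg _
  have h4 : (Dp G σ z i : ℝ) ≤ 2 * s := by
    rw [hδ] at hz; nlinarith
  exact_mod_cast h4

/-- The number of parts with many good triples. -/
theorem parts_many {s r : ℕ} {γ ζ : ℝ} (hγ : 0 < γ) (hζ1 : ζ ≤ 1) (hs : 1 ≤ s)
    (hδ : δ = ζ * s) (hr : (r : ℝ) ≤ γ * s / 4)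
    (hD : ∀ x, Dp G σ x (σ x) ≤ s) (p : V × V)
    (hp : γ * (M * s : ℕ) / 2 ≤ ((univ.filter fun x => Gd G σ δ p.1 p.2 x).card : ℝ)) :
    γ * M / 8 ≤ ∑ i, (((gs G σ δ p i).powersetCard r).card : ℝ) := by
  have hs' : (0 : ℝ) < s := by exact_mod_cast hs
  have h1 : ((univ.filter fun x => Gd G σ δ p.1 p.2 x).card : ℝ) =
      ∑ i, ((gs G σ δ p i).card : ℝ) := by
    rw [Finset.card_eq_sum_card_fiberwise (f := σ) (t := univ) (fun _ _ => mem_univ _)]
    push_cast
    refine Finset.sum_congr rfl fun i _ => ?_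
    rw [Finset.filter_filter]
    rfl
  have h2 : ∀ i, ((gs G σ δ p i).card : ℝ) ≤
      2 * s * (((gs G σ δ p i).powersetCard r).card : ℝ) + γ * s / 4 := by
    intro i
    by_cases hi : r ≤ (gs G σ δ p i).card
    · have h3 : (1 : ℝ) ≤ (((gs G σ δ p i).powersetCard r).card : ℝ) := by
        have : 1 ≤ ((gs G σ δ p i).powersetCard r).card := by
          rw [Finset.card_powersetCard]
          exact Nat.choose_pos hi
        exact_mod_cast this
      have h5 : (gs G σ δ p i).card ≤ 2 * s := by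
        by_cases he : (gs G σ δ p i).Nonempty
        · obtain ⟨x, hx⟩ := he
          simp only [gs, Gd, Qp, mem_filter, mem_univ, true_and] at hx
          have hz : exc G σ p.1 i ≤ δ := by
            have := hx.1.2.1.2.2.1
            rwa [hx.2] at this
          refine le_trans (Finset.card_le_card ?_) (gs_card_le G σ δ hζ1 hδ hD p.1 i hz)
          intro y hy
          simp only [gs, Gd, mem_filter, mem_univ, true_and] at hy ⊢
          exact ⟨hy.1.2.1.1.symm, hy.2⟩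
        · rw [Finset.not_nonempty_iff_eq_empty] at he
          rw [he]; simp
      have h6 : ((gs G σ δ p i).card : ℝ) ≤ 2 * s := by exact_mod_cast h5
      have h7 : 0 ≤ γ * s / 4 := by positivity
      nlinarith
    · have h3 : ((gs G σ δ p i).card : ℝ) ≤ r := by exact_mod_cast (not_le.mp hi).le
      have h4 : 0 ≤ 2 * (s : ℝ) * (((gs G σ δ p i).powersetCard r).card : ℝ) := by positivity
      linarith
  have h3 : ∑ i, ((gs G σ δ p i).card : ℝ) ≤
      2 * s * (∑ i, (((gs G σ δ p i).powersetCard r).card : ℝ)) + M * (γ * s / 4) := by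
    calc ∑ i, ((gs G σ δ p i).card : ℝ) ≤ ∑ i, (2 * s * (((gs G σ δ p i).powersetCard r).card : ℝ)
          + γ * s / 4) := Finset.sum_le_sum fun i _ => h2 i
      _ = 2 * s * (∑ i, (((gs G σ δ p i).powersetCard r).card : ℝ)) + M * (γ * s / 4) := by
          rw [Finset.sum_add_distrib, ← Finset.mul_sum, Finset.sum_const, nsmul_eq_mul,
            Finset.card_univ, Fintype.card_fin]
  rw [h1] at hp
  push_cast at hp
  have h4 : γ * (M * s) / 2 ≤ 2 * s * (∑ i, (((gs G σ δ p i).powersetCard r).card : ℝ)) +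
      M * (γ * s / 4) := hp.trans h3
  have h5 : s * (γ * M / 8) ≤ s * ∑ i, (((gs G σ δ p i).powersetCard r).card : ℝ) := by
    linarith
  exact le_of_mul_le_mul_left h5 hs'

/-- The admissible sets. -/
noncomputable def XX (r : ℕ) (i : Fin M) : Finset (Finset V) :=
  ((univ : Finset V).powersetCard r).filter fun X => (∀ x ∈ X, σ x = i) ∧ ∀ x ∈ X, Fine G σ δ x

theorem sum_NX_le {s r : ℕ} {ζ : ℝ} (hζ1 : ζ ≤ 1) (hδ : δ = ζ * s)
    (hD : ∀ x, Dp G σ x (σ x) ≤ s) :
    (∑ i, ∑ X ∈ XX G σ δ r i, ((NX G σ δ i X).card : ℝ)) ≤ Fintype.card V * M * 4 ^ s := by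
  have e1 : ∀ i X, ((NX G σ δ i X).card : ℝ) = ∑ z, if z ∈ NX G σ δ i X then (1 : ℝ) else 0 := by
    intro i X
    rw [Finset.sum_ite_mem, Finset.univ_inter, Finset.sum_const, nsmul_eq_mul, mul_one]
  have h1 : ∀ i, (∑ X ∈ XX G σ δ r i, ((NX G σ δ i X).card : ℝ)) ≤
      Fintype.card V * 4 ^ s := by
    intro i
    simp_rw [e1]
    rw [Finset.sum_comm]
    have h2 : ∀ z : V, (∑ X ∈ XX G σ δ r i, if z ∈ NX G σ δ i X then (1 : ℝ) else 0) ≤ 4 ^ s := by
      intro z
      rw [← Finset.sum_filter, Finset.sum_const, nsmul_eq_mul, mul_one]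
      by_cases hz : exc G σ z i ≤ δ
      · have h3 := gs_card_le G σ δ hζ1 hδ hD z i hz
        have h4 : ((XX G σ δ r i).filter fun X => z ∈ NX G σ δ i X).card ≤ 4 ^ s := by
          calc ((XX G σ δ r i).filter fun X => z ∈ NX G σ δ i X).card
              ≤ ((univ.filter fun y => G.Adj z y ∧ σ y = i).powerset).card := by
                refine Finset.card_le_card ?_
                intro X hX
                simp only [XX, NX, mem_filter, mem_univ, true_and, mem_powersetCard] at hX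
                rw [Finset.mem_powerset]
                intro x hx
                simp only [mem_filter, mem_univ, true_and]
                exact ⟨(hX.2.2.2 x hx).1.symm, hX.1.2.1 x hx⟩
            _ = 2 ^ (Dp G σ z i) := by rw [Finset.card_powerset]; rfl
            _ ≤ 2 ^ (2 * s) := Nat.pow_le_pow_right (by norm_num) h3
            _ = 4 ^ s := by rw [pow_mul]; norm_num
        exact_mod_cast h4
      · have h4 : ((XX G σ δ r i).filter fun X => z ∈ NX G σ δ i X) = ∅ := by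
          rw [Finset.filter_eq_empty_iff]
          intro X _ hX
          simp only [NX, mem_filter, mem_univ, true_and] at hX
          exact hz hX.2.1
        rw [h4]
        simp
    calc (∑ z, ∑ X ∈ XX G σ δ r i, if z ∈ NX G σ δ i X then (1 : ℝ) else 0)
        ≤ ∑ z : V, (4 : ℝ) ^ s := Finset.sum_le_sum fun z _ => h2 z
      _ = Fintype.card V * 4 ^ s := by rw [Finset.sum_const, nsmul_eq_mul, Finset.card_univ]
  calc (∑ i, ∑ X ∈ XX G σ δ r i, ((NX G σ δ i X).card : ℝ))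
      ≤ ∑ i : Fin M, (Fintype.card V * 4 ^ s : ℝ) := Finset.sum_le_sum fun i _ => h1 i
    _ = Fintype.card V * M * 4 ^ s := by
        rw [Finset.sum_const, nsmul_eq_mul, Finset.card_univ, Fintype.card_fin]; ring

theorem sum_ps_le {r : ℕ} (hr : 1 ≤ r) (B B' : Finset (V × V)) (hB : B' ⊆ B) :
    (∑ p ∈ B', ∑ i, (((gs G σ δ p i).powersetCard r).card : ℝ)) ≤
      ∑ i, ∑ X ∈ XX G σ δ r i, ((B.filter fun p =>
          p.1 ∈ NX G σ δ i X ∧ p.2 ∈ NX G σ δ i X).card : ℝ) := by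
  rw [Finset.sum_comm]
  refine Finset.sum_le_sum fun i _ => ?_
  have e1 : ∀ p ∈ B', (((gs G σ δ p i).powersetCard r).card : ℝ) ≤
      ∑ X ∈ XX G σ δ r i, if (p.1 ∈ NX G σ δ i X ∧ p.2 ∈ NX G σ δ i X) then (1 : ℝ) else 0 := by
    intro p _
    rw [← Finset.sum_filter, Finset.sum_const, nsmul_eq_mul, mul_one]
    have : ((gs G σ δ p i).powersetCard r).card ≤
        ((XX G σ δ r i).filter fun X => p.1 ∈ NX G σ δ i X ∧ p.2 ∈ NX G σ δ i X).card := by
      refine Finset.card_le_card ?_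
      intro X hX
      rw [Finset.mem_powersetCard] at hX
      obtain ⟨hX1, hX2⟩ := hX
      have hmem : ∀ x ∈ X, Gd G σ δ p.1 p.2 x ∧ σ x = i := by
        intro x hx
        have := hX1 hx
        simpa only [gs, mem_filter, mem_univ, true_and] using this
      obtain ⟨x₀, hx₀⟩ : X.Nonempty := by
        rw [← Finset.card_pos, hX2]; exact hr
      have h0 := hmem x₀ hx₀
      simp only [XX, NX, mem_filter, mem_univ, true_and, mem_powersetCard, subset_univ]
      refine ⟨⟨hX2, fun x hx => (hmem x hx).2, fun x hx => (hmem x hx).1.1⟩, ⟨?_, ?_, ?_⟩,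
        ⟨?_, ?_, ?_⟩⟩
      · rw [← h0.2]; exact h0.1.2.1.2.1
      · rw [← h0.2]; exact h0.1.2.1.2.2.1
      · intro x hx
        have h := hmem x hx
        exact ⟨h.1.2.1.1, h.1.2.1.2.2.2⟩
      · rw [← h0.2]; exact h0.1.2.2.2.1
      · rw [← h0.2]; exact h0.1.2.2.2.2.1
      · intro x hx
        have h := hmem x hx
        exact ⟨h.1.2.2.1, h.1.2.2.2.2.2⟩
    exact_mod_cast this
  refine (Finset.sum_le_sum e1).trans ?_
  rw [Finset.sum_comm]
  refine Finset.sum_le_sum fun X _ => ?_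
  rw [← Finset.sum_filter, Finset.sum_const, nsmul_eq_mul, mul_one]
  have : (B'.filter fun p => p.1 ∈ NX G σ δ i X ∧ p.2 ∈ NX G σ δ i X).card ≤
      (B.filter fun p => p.1 ∈ NX G σ δ i X ∧ p.2 ∈ NX G σ δ i X).card :=
    Finset.card_le_card (Finset.filter_subset_filter _ hB)
  exact_mod_cast this

end

/-- **PK1**. -/
theorem pk1 (h1 : S_EXPOS) : S_PK1 := by
  intro γ ζ τ s r M hγ hγ1 hζ hζ1 hτ hs hr hrs hM hpar V _ G σ hopt hdeg hsum hbad
  obtain ⟨hpos, hDp⟩ := h1 V inferInstance G M σ hopt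
  have hD : ∀ x, Dp G σ x (σ x) ≤ s := fun x => hDp s x (hdeg x)
  have hs' : (0 : ℝ) < s := by exact_mod_cast hs
  have hM' : (0 : ℝ) < M := by exact_mod_cast hM
  set δ : ℝ := ζ * s with hδ
  set t : ℝ := ((M * s : ℕ) : ℝ) with ht
  have htMs : t = M * s := by rw [ht]; push_cast; ring
  have ht0 : 0 < t := by rw [htMs]; positivity
  set n : ℝ := (Fintype.card V : ℝ) with hn
  have hn0 : 0 ≤ n := Nat.cast_nonneg _
  have hnpos : 0 < n := by
    rcases hn0.lt_or_eq with h | h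
    · exact h
    · exfalso
      have hc : Fintype.card V = 0 := by
        rw [hn] at h; exact_mod_cast h.symm
      have hV : IsEmpty V := Fintype.card_eq_zero_iff.mp hc
      have : (bad G (M * s) γ).card = 0 := by
        rw [Finset.card_eq_zero]
        ext p
        exact (hV.false p.1).elim
      rw [this] at hbad
      have : 0 ≤ γ * t * n := by positivity
      rw [Nat.cast_zero] at hbad
      linarith
  -- the number of triples that are not good
  have hPb : (∑ x, ((Pb G σ δ x).card : ℝ)) ≤ n * s + 2 * ((1 + 1 / ζ) * (τ * t * n)) := by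
    refine (sum_Pb_le G σ δ).trans ?_
    have a1 : (∑ x, (Dp G σ x (σ x) : ℝ)) ≤ n * s := by
      calc (∑ x, (Dp G σ x (σ x) : ℝ)) ≤ ∑ x : V, (s : ℝ) :=
            Finset.sum_le_sum fun x _ => by exact_mod_cast hD x
        _ = n * s := by rw [Finset.sum_const, nsmul_eq_mul, Finset.card_univ]
    have a2 := Lg_le G σ δ hζ hδ hpos hD
    have a3 : (1 + 1 / ζ) * (∑ x, ∑ j, exc G σ x j) ≤ (1 + 1 / ζ) * (τ * t * n) :=
      mul_le_mul_of_nonneg_left hsum (by positivity)
    linarith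
  have hnf := nf_le G σ δ hζ hs hM hδ hpos hsum
  have hNG : (∑ x, ((NGx G σ δ x).card : ℝ)) ≤ γ ^ 2 / 4 * t ^ 2 * n := by
    calc (∑ x, ((NGx G σ δ x).card : ℝ))
        ≤ ∑ x, ((if ¬ Fine G σ δ x then t ^ 2 else 0) + 2 * t * ((Pb G σ δ x).card : ℝ)) :=
          Finset.sum_le_sum fun x _ => NGx_le G σ δ hdeg x
      _ = ((univ.filter fun x => ¬ Fine G σ δ x).card : ℝ) * t ^ 2 +
          2 * t * ∑ x, ((Pb G σ δ x).card : ℝ) := by
          rw [Finset.sum_add_distrib, ← Finset.sum_filter, Finset.sum_const, nsmul_eq_mul,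
            ← Finset.mul_sum]
      _ ≤ (4 * τ / ζ * n) * t ^ 2 + 2 * t * (n * s + 2 * ((1 + 1 / ζ) * (τ * t * n))) := by
          gcongr
      _ = (2 / M + (8 * τ / ζ + 4 * τ)) * (t ^ 2 * n) := by
          rw [htMs]; field_simp; ring
      _ ≤ (2 / M + 12 * τ / ζ) * (t ^ 2 * n) := by
          refine mul_le_mul_of_nonneg_right ?_ (by positivity)
          have : τ ≤ τ / ζ := by
            rw [le_div_iff₀ hζ]; nlinarith
          have e : 12 * τ / ζ = 8 * τ / ζ + 4 * (τ / ζ) := by ring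
          rw [e]; linarith
      _ ≤ (γ ^ 2 / 4) * (t ^ 2 * n) := mul_le_mul_of_nonneg_right hpar (by positivity)
      _ = γ ^ 2 / 4 * t ^ 2 * n := by ring
  set B := bad G (M * s) γ with hB
  set B' := B.filter fun p => ((ng G σ δ p).card : ℝ) ≤ γ * t / 2 with hB'
  have hB'card : γ * t * n / 2 < (B'.card : ℝ) := by
    have c1 : ((B.filter fun p => ¬ ((ng G σ δ p).card : ℝ) ≤ γ * t / 2).card : ℝ) *
        (γ * t / 2) ≤ γ ^ 2 / 4 * t ^ 2 * n := by
      refine le_trans ?_ ((sum_ng_le G σ δ B).trans hNG)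
      calc ((B.filter fun p => ¬ ((ng G σ δ p).card : ℝ) ≤ γ * t / 2).card : ℝ) * (γ * t / 2)
          = ∑ p ∈ B.filter (fun p => ¬ ((ng G σ δ p).card : ℝ) ≤ γ * t / 2), (γ * t / 2) := by
            rw [Finset.sum_const, nsmul_eq_mul]
        _ ≤ ∑ p ∈ B.filter (fun p => ¬ ((ng G σ δ p).card : ℝ) ≤ γ * t / 2),
              ((ng G σ δ p).card : ℝ) :=
            Finset.sum_le_sum fun p hp => (not_le.mp (Finset.mem_filter.mp hp).2).le
        _ ≤ ∑ p ∈ B, ((ng G σ δ p).card : ℝ) :=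
            Finset.sum_le_sum_of_subset_of_nonneg (Finset.filter_subset _ _)
              fun p _ _ => Nat.cast_nonneg _
    have c2 : ((B.filter fun p => ¬ ((ng G σ δ p).card : ℝ) ≤ γ * t / 2).card : ℝ) ≤
        γ * t * n / 2 := by
      have e : γ ^ 2 / 4 * t ^ 2 * n = (γ * t * n / 2) * (γ * t / 2) := by ring
      rw [e] at c1
      exact le_of_mul_le_mul_right c1 (by positivity)
    have c3 : (B'.card : ℝ) + ((B.filter fun p => ¬ ((ng G σ δ p).card : ℝ) ≤ γ * t / 2).card : ℝ)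
        = B.card := by
      rw [hB']
      exact_mod_cast Finset.card_filter_add_card_filter_not _
    linarith
  have hgood : ∀ p ∈ B', γ * t / 2 ≤ ((univ.filter fun x => Gd G σ δ p.1 p.2 x).card : ℝ) := by
    intro p hp
    have hp1 := (Finset.mem_filter.mp hp).1
    have hp2 := (Finset.mem_filter.mp hp).2
    have hp3 : γ * t ≤ cod G p.1 p.2 := by
      rw [hB] at hp1
      exact (Finset.mem_filter.mp hp1).2.2.2
    have c1 : cmn G p.1 p.2 ⊆ ng G σ δ p ∪ (univ.filter fun x => Gd G σ δ p.1 p.2 x) := by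
      intro x hx
      rw [Finset.mem_union]
      by_cases hg : Gd G σ δ p.1 p.2 x
      · exact Or.inr (Finset.mem_filter.mpr ⟨mem_univ _, hg⟩)
      · exact Or.inl (Finset.mem_filter.mpr ⟨hx, hg⟩)
    have c2 := (Finset.card_le_card c1).trans (Finset.card_union_le _ _)
    have c3 : (cod G p.1 p.2 : ℝ) ≤ ((ng G σ δ p).card : ℝ) +
        ((univ.filter fun x => Gd G σ δ p.1 p.2 x).card : ℝ) := by
      exact_mod_cast c2
    linarith
  have hlow : γ ^ 2 * t * n * M / 16 ≤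
      ∑ i, ∑ X ∈ XX G σ δ r i, ((B.filter fun p =>
          p.1 ∈ NX G σ δ i X ∧ p.2 ∈ NX G σ δ i X).card : ℝ) := by
    refine le_trans ?_ (sum_ps_le G σ δ hr B B' (Finset.filter_subset _ _))
    calc γ ^ 2 * t * n * M / 16 = (γ * t * n / 2) * (γ * M / 8) := by ring
      _ ≤ (B'.card : ℝ) * (γ * M / 8) := by
          exact mul_le_mul_of_nonneg_right hB'card.le (by positivity)
      _ = ∑ p ∈ B', (γ * M / 8) := by rw [Finset.sum_const, nsmul_eq_mul]
      _ ≤ ∑ p ∈ B', ∑ i, (((gs G σ δ p i).powersetCard r).card : ℝ) := by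
          refine Finset.sum_le_sum fun p hp => ?_
          exact parts_many G σ δ hγ hζ1 hs hδ hrs hD p (hgood p hp)
  by_contra hcon
  push Not at hcon
  have hup : (∑ i, ∑ X ∈ XX G σ δ r i, ((B.filter fun p =>
          p.1 ∈ NX G σ δ i X ∧ p.2 ∈ NX G σ δ i X).card : ℝ)) ≤
      γ ^ 2 / (32 * 4 ^ s) * t * (∑ i, ∑ X ∈ XX G σ δ r i, ((NX G σ δ i X).card : ℝ)) := by
    rw [Finset.mul_sum]
    refine Finset.sum_le_sum fun i _ => ?_
    rw [Finset.mul_sum]
    refine Finset.sum_le_sum fun X hX => ?_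
    simp only [XX, mem_filter, mem_powersetCard, subset_univ, true_and] at hX
    exact hcon i X hX.2.1 hX.1 hX.2.2
  have hup2 : γ ^ 2 / (32 * 4 ^ s) * t * (∑ i, ∑ X ∈ XX G σ δ r i, ((NX G σ δ i X).card : ℝ)) ≤
      γ ^ 2 / (32 * 4 ^ s) * t * (n * M * 4 ^ s) :=
    mul_le_mul_of_nonneg_left (sum_NX_le G σ δ hζ1 hδ hD) (by positivity)
  have hfin : γ ^ 2 / (32 * 4 ^ s) * t * (n * M * 4 ^ s) = γ ^ 2 * t * n * M / 32 := by
    field_simp
  have hpos2 : 0 < γ ^ 2 * t * n * M := by positivity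
  linarith

end Pool.Agent.Helper94.PlzA
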